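import Pool.Agent.H98.EX.BTargets

/-!
# (UFX) the moments of the partition function are bounded (MP_65efe8_pr)
-/

set_option autoImplicit false

open MeasureTheory ProbabilityTheory Filter Topology
open scoped ENNReal
open Pool.Agent.H95 Pool.Agent.H95.Cop
open Pool.Agent.H55.CG (Mo)
open Pool.Agent.H96.Cop (Wn)
open Pool.Agent.H99.CE (Reg)
open Pool.Agent.H98.EX

namespace Pool.Agent.H4.EX

/-- the two notations for the moments -/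
theorem UFX_mo (ν : Measure ℝ) (hν : ∀ t : ℝ, Integrable (fun z => Real.exp (t * z)) ν)
    (θ : ℝ) : Pool.Agent.H96.Cop.Mo ν θ = ENNReal.ofReal (Mo ν θ) := by
  unfold Pool.Agent.H96.Cop.Mo Mo
  rw [ofReal_integral_eq_lintegral_ofReal (hν θ)
    (Filter.Eventually.of_forall fun z => (Real.exp_pos _).le)]
  refine lintegral_congr fun z => ?_
  rw [ENNReal.ofReal_rpow_of_pos (Real.exp_pos z), ← Real.exp_mul, mul_comm z θ]

/-- the moments of the law of an increment -/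
theorem UFX_mom (hYSM : T_YSM) {ν : Measure ℝ} {k Q : ℕ} {ϑ ε τ U τ1 : ℝ}
    (hEG : EG ν k ϑ ε τ U) (hk : 1 ≤ k) (hϑ : 0 < ϑ) (hϑ1 : ϑ ≤ 1) (hε : 0 ≤ ε)
    (hU : (Q : ℝ) / 2 + 1 ≤ U) (hτ : ((Q : ℝ) + 1) * ε + τ ≤ τ1) :
    ∀ q : ℝ, -1 ≤ q → q ≤ Q →
      Real.exp (ϑ * (q ^ 2 / 2 - q / 4) - τ1) ≤ Mo (rl ν k ϑ) q ∧
      Mo (rl ν k ϑ) q ≤ Real.exp (ϑ * (q ^ 2 / 2 - q / 4) + τ1) := by
  intro q hq1 hq2
  haveI := hEG.prob
  obtain ⟨-, -, -, hM, -⟩ := hYSM ν hEG.exp k ϑ hk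
  have hQ0 : (0 : ℝ) ≤ Q := Nat.cast_nonneg Q
  have hu : |q / 2| ≤ U := by
    rw [abs_le]
    constructor <;> linarith
  have h1 := hEG.lo (q / 2) hu
  have h2 := hEG.up (q / 2) hu
  have hqe : |ϑ * (q * ε)| ≤ ((Q : ℝ) + 1) * ε := by
    rw [abs_mul, abs_mul, abs_of_pos hϑ, abs_of_nonneg hε]
    have h3 : |q| ≤ (Q : ℝ) + 1 := by
      rw [abs_le]
      constructor <;> linarith
    have h4 : |q| * ε ≤ ((Q : ℝ) + 1) * ε := mul_le_mul_of_nonneg_right h3 hε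
    have h5 : 0 ≤ |q| * ε := mul_nonneg (abs_nonneg _) hε
    calc ϑ * (|q| * ε) ≤ 1 * (|q| * ε) := mul_le_mul_of_nonneg_right hϑ1 h5
      _ ≤ ((Q : ℝ) + 1) * ε := by rw [one_mul]; exact h4
  obtain ⟨h6, h7⟩ := abs_le.1 hqe
  rw [hM q]
  have e1 : ϑ * (2 * (q / 2) ^ 2 - 2 * (q / 2) * (3 / 4 + ε)) =
      ϑ * (q ^ 2 / 2 - q / 4) - q * ϑ / 2 - ϑ * (q * ε) := by ring
  rw [e1] at h1 h2
  constructor
  · calc Real.exp (ϑ * (q ^ 2 / 2 - q / 4) - τ1)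
        ≤ Real.exp (q * ϑ / 2 + (ϑ * (q ^ 2 / 2 - q / 4) - q * ϑ / 2 - ϑ * (q * ε) - τ)) :=
          Real.exp_le_exp.2 (by linarith)
      _ = Real.exp (q * ϑ / 2) *
          Real.exp (ϑ * (q ^ 2 / 2 - q / 4) - q * ϑ / 2 - ϑ * (q * ε) - τ) := Real.exp_add _ _
      _ ≤ Real.exp (q * ϑ / 2) * Mo ν (q / 2) ^ k :=
          mul_le_mul_of_nonneg_left h1 (Real.exp_pos _).le
  · calc Real.exp (q * ϑ / 2) * Mo ν (q / 2) ^ k
        ≤ Real.exp (q * ϑ / 2) *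
          Real.exp (ϑ * (q ^ 2 / 2 - q / 4) - q * ϑ / 2 - ϑ * (q * ε) + τ) :=
          mul_le_mul_of_nonneg_left h2 (Real.exp_pos _).le
      _ = Real.exp (q * ϑ / 2 + (ϑ * (q ^ 2 / 2 - q / 4) - q * ϑ / 2 - ϑ * (q * ε) + τ)) :=
          (Real.exp_add _ _).symm
      _ ≤ Real.exp (ϑ * (q ^ 2 / 2 - q / 4) + τ1) := Real.exp_le_exp.2 (by linarith)

/-- the moment of order `te` of one charge is at most one -/
theorem UFX_one {ν : Measure ℝ} {k : ℕ} {ϑ ε τ U θ : ℝ} (hEG : EG ν k ϑ ε τ U) (hk : 1 ≤ k)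
    (hϑ : 0 < ϑ) (hε : 0 ≤ ε) (hU : 3 ≤ U) (hθ : 1 / 2 ≤ θ) (hθ1 : θ ≤ 5 / 8)
    (hτ : τ ≤ ϑ / 8) : Pool.Agent.H96.Cop.Mo ν θ ≤ 1 := by
  rw [UFX_mo ν hEG.exp θ, ENNReal.ofReal_le_one]
  have h0 : 0 ≤ Mo ν θ := integral_nonneg fun z => (Real.exp_pos _).le
  have h1 := hEG.up θ (by rw [abs_le]; constructor <;> linarith)
  have h2 : ϑ * (2 * θ ^ 2 - 2 * θ * (3 / 4 + ε)) + τ ≤ 0 := by
    have h3 : 2 * θ ^ 2 - 2 * θ * (3 / 4 + ε) = -(2 * θ) * (3 / 4 + ε - θ) := by ring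
    have h4 : (1 : ℝ) * (1 / 8) ≤ (2 * θ) * (3 / 4 + ε - θ) :=
      mul_le_mul (by linarith) (by linarith) (by norm_num) (by linarith)
    have h5 : 2 * θ ^ 2 - 2 * θ * (3 / 4 + ε) ≤ -(1 / 8) := by
      rw [h3]
      linarith
    have h6 := mul_le_mul_of_nonneg_left h5 hϑ.le
    linarith
  have h7 : Mo ν θ ^ k ≤ 1 := h1.trans (by rw [← Real.exp_zero]; exact Real.exp_le_exp.2 h2)
  exact (pow_le_one_iff_of_nonneg h0 (by omega)).1 h7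

/-- the exponent is close to `1 / 2` -/
theorem UFX_te {α s d τ1 : ℝ} (hs : 0 < s) (h1 : 1 - d ≤ α) (h2 : α ≤ 1) (hd : d ≤ 1 / 2)
    (h3 : (d + 2 * s) / 2 ≤ τ1) : |te α s - 1 / 2| ≤ τ1 := by
  have hα : 0 < 1 + α := by linarith
  have e1 : te α s - 1 / 2 = (1 - α + 2 * s) / (2 * (1 + α)) := by
    unfold te
    field_simp
    ring
  have h4 : 0 ≤ (1 - α + 2 * s) / (2 * (1 + α)) := by
    apply div_nonneg <;> linarith
  rw [e1, abs_of_nonneg h4]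
  refine le_trans ?_ h3
  apply div_le_div₀ (by linarith) (by linarith) (by norm_num) (by linarith)

theorem pf_UFX (hSCX : T_SCX) (hFCX : T_FCX) (hQTB : T_QTB) (hQGB : T_QGB) (hCHX : T_CHX)
    (hNM1 : T_NM1) (hNM2 : T_NM2) (hYSM : T_YSM) : T_UFX := by
  intro kp hkp
  have hks : 0 < ks := by
    unfold ks
    apply Real.rpow_pos_of_pos
    positivity
  have hkp0 : 0 < kp := hks.trans hkp
  obtain ⟨ς, δ0, ϑ, ω, τ1, R, Q, hς, hςk, hδ0, hδ04, hϑ, hϑ64, hω, hω1, hϑω, hR, hτ1, hCH⟩ :=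
    hCHX kp hkp
  obtain ⟨C, κc, hC, hκc, hSC⟩ := hSCX δ0 hδ0 (by linarith)
  obtain ⟨Nb, x1, hNb, hx1, hN2⟩ := hNM2 kp ς δ0 ϑ ω R hkp0 hς hςk hδ0 hδ04 hϑ hϑ64 hω hω1
  obtain ⟨x2, hx2, hN1⟩ := hNM1 ς ϑ Nb C κc hς hϑ (by linarith) hNb hC hκc
  have hQ0 : (0 : ℝ) ≤ Q := Nat.cast_nonneg Q
  set D : ℝ := 1 + 2 * ς + ((Q : ℝ) + 1) * kp + 1 with hD
  have hD0 : 0 < D := by positivity
  set xs : ℝ := min (min x1 x2) (min (1 / 2) (τ1 / D)) with hxs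
  have hxs0 : 0 < xs := lt_min (lt_min hx1 hx2) (lt_min (by norm_num) (div_pos hτ1 hD0))
  refine ⟨ϑ, max 3 ((Q : ℝ) / 2 + 1), xs ^ 4, hϑ, hϑ64, by positivity, by positivity, ?_⟩
  intro K α c δ τ k q n1 ν hδ hRX hEG hτ0 hτδ hReg hn1 hkϑ
  haveI := hEG.prob
  have hδpos : 0 < δ := hRX.rg.δ0
  set x : ℝ := δ ^ (1 / 4 : ℝ) with hxd
  have hx0 : 0 < x := Real.rpow_pos_of_pos hδpos _
  have hx4 : x ^ 4 = δ := by
    rw [hxd, ← Real.rpow_natCast, ← Real.rpow_mul hδpos.le]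
    norm_num
  have hxlt : x < xs := by
    have h1 : x ^ 4 < xs ^ 4 := by
      rw [hx4]
      exact hδ
    exact lt_of_pow_lt_pow_left₀ 4 hxs0.le h1
  have hxx1 : x < x1 := hxlt.trans_le ((min_le_left _ _).trans (min_le_left _ _))
  have hxx2 : x < x2 := hxlt.trans_le ((min_le_left _ _).trans (min_le_right _ _))
  have hxh : x < 1 / 2 := hxlt.trans_le ((min_le_right _ _).trans (min_le_left _ _))
  have hxD : x * D ≤ τ1 := by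
    have h1 : x ≤ τ1 / D := (hxlt.trans_le ((min_le_right _ _).trans (min_le_right _ _))).le
    rwa [le_div_iff₀ hD0] at h1
  have hδx : δ ≤ x := by
    rw [← hx4]
    calc x ^ 4 ≤ x ^ 1 := pow_le_pow_of_le_one hx0.le (by linarith) (by norm_num)
      _ = x := pow_one x
  have hα0 : 1 - δ ≤ α := hRX.rg.α0
  have hα1 : α ≤ 1 := hRX.rg.α1
  have hc : 0 < c := hRX.rg.c0
  have hk1 : 1 ≤ k := by
    rcases Nat.eq_zero_or_pos k with h | h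
    · rw [h, Nat.cast_zero, mul_zero] at hkϑ
      linarith
    · exact h
  have hα0' : 1 - x ^ 4 ≤ α := by rw [hx4]; exact hα0
  have hτx : τ ≤ x ^ 4 := by rw [hx4]; exact hτδ
  obtain ⟨a1, a2, a3, a4, a5, a6, a7, a8, a9, a10, a11⟩ :=
    hN2 x hx0 hxx1 α τ hα0' hα1 hτ0 hτx
  obtain ⟨b1, b2, b3, b4, b5, b6⟩ := hN1 x hx0 hxx2 α hα0' hα1
  rw [hx4] at a5 a6 a7 a8 a9 a10 a11
  have hs0 : 0 < ς * x := mul_pos hς hx0
  have hU3 : (3 : ℝ) ≤ max 3 ((Q : ℝ) / 2 + 1) := le_max_left _ _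
  have hUQ : (Q : ℝ) / 2 + 1 ≤ max 3 ((Q : ℝ) / 2 + 1) := le_max_right _ _
  have hε0 : 0 ≤ kp * x := (mul_pos hkp0 hx0).le
  have hEG3 : EG ν k ϑ (kp * x) τ 3 := ⟨hEG.prob, hEG.exp,
    fun u hu => hEG.lo u (hu.trans hU3), fun u hu => hEG.up u (hu.trans hU3)⟩
  have hBC : BC K ν α c δ (ϑ / 8) ϑ (kp * x) τ ω (ς * x) k q :=
    ⟨hRX, hEG3, hε0, hs0, a1, a2, hϑ, hϑ64, hω, hω1, hϑω, a3, hτ0, a4, le_refl _, a5, hkϑ,
      a6, a7⟩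
  -- the law of the increments
  obtain ⟨-, hρ, hρi, -, -⟩ := hYSM ν hEG.exp k ϑ hk1
  have hmom := UFX_mom hYSM (τ1 := τ1) hEG hk1 hϑ (by linarith) hε0 hUQ (by
    have h1 : ((Q : ℝ) + 1) * (kp * x) + τ ≤ x * D := by
      have h2 : x * D = x + x * (2 * ς) + ((Q : ℝ) + 1) * (kp * x) + x := by rw [hD]; ring
      have h3 : 0 ≤ x * (2 * ς) := by positivity
      rw [h2]
      linarith
    exact h1.trans hxD)
  have hte : |te α (ς * x) - 1 / 2| ≤ τ1 := by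
    refine UFX_te hs0 hα0 hα1 (by linarith) ?_
    have h2 : x * D = x + 2 * (ς * x) + ((Q : ℝ) + 1) * (kp * x) + x := by rw [hD]; ring
    have h3 : 0 ≤ ((Q : ℝ) + 1) * (kp * x) := by positivity
    have h4 : 0 ≤ ς * x := hs0.le
    linarith
  have hττ : τ ≤ τ1 := by
    have h2 : x * D = x + 2 * (ς * x) + ((Q : ℝ) + 1) * (kp * x) + x := by rw [hD]; ring
    have h3 : 0 ≤ ((Q : ℝ) + 1) * (kp * x) := by positivity
    have h4 : 0 ≤ ς * x := hs0.le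
    linarith
  obtain ⟨hQ2, hCHi⟩ := hCH (rl ν k ϑ) hρi hmom (te α (ς * x)) τ hte hτ0 hττ
  have hGB := a11 _ hQ2 hCHi
  -- the base
  obtain ⟨hT, hRR⟩ := hQTB K ν α c δ (ϑ / 8) ϑ (kp * x) τ ω (ς * x) k q hBC (nx0 x) x Nb b6
    hx0 a8 a9 a10
  have hG := hQGB K ν α c δ (ϑ / 8) ϑ (kp * x) τ ω (ς * x) k q hBC R (nx0 x) x _ hR b6 hx0 a8
    hGB
  -- the scales
  have hkB : k ≤ nx0 x * k := Nat.le_mul_of_pos_left k b6
  have hM1 : 1 ≤ Mx x := b1.M1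
  have hMJ : 1 ≤ Mx x ^ Jx x := Nat.one_le_pow _ _ hM1
  have hk0 : (k : ℝ) ≠ 0 := by
    have : (0 : ℝ) < k := by exact_mod_cast hk1
    exact this.ne'
  have hratio : ((Mx x ^ Jx x * (nx0 x * k) : ℕ) : ℝ) / k =
      ((Mx x ^ Jx x * nx0 x : ℕ) : ℝ) := by
    rw [← mul_assoc, Nat.cast_mul (Mx x ^ Jx x * nx0 x) k, mul_div_assoc, div_self hk0, mul_one]
  have hfin := hSC K ν α (ς * x) x c ϑ (hx x) Nb (x ^ (1 / 8 : ℝ)) (Xx ς x) (Mx x) (Jx x) n1 k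
    (nx0 x * k) b1 hNb b2 b3 hc hReg hk1 hkB (hn1.trans hkB)
    (by rw [hratio]; exact le_refl _) hT hRR hG
  have hBB : nx0 x * k ≤ Mx x ^ Jx x * (nx0 x * k) := Nat.le_mul_of_pos_left _ hMJ
  have hCN : 0 ≤ C * Nb := by positivity
  have hmo : Pool.Agent.H96.Cop.Mo ν (te α (ς * x)) ≤ 1 := by
    have h1 : te α (ς * x) ≤ te α (2 * (ς * x)) := by
      unfold te
      apply div_le_div_of_nonneg_right _ (by linarith)
      linarith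
    refine UFX_one hEG hk1 hϑ hε0 hU3 a1 (h1.trans a2) ?_
    have h2 : ω ^ 2 ≤ 1 := pow_le_one₀ hω.le hω1
    have h3 : ω ^ 2 * ϑ ≤ 1 * ϑ := mul_le_mul_of_nonneg_right h2 hϑ.le
    have h4 : ω ^ 2 * ϑ / 2 ^ 10 ≤ ϑ / 2 ^ 10 := by
      apply div_le_div_of_nonneg_right _ (by norm_num)
      linarith
    have h5 : ϑ / 2 ^ 10 ≤ ϑ / 8 := by
      apply div_le_div_of_nonneg_left hϑ.le (by norm_num) (by norm_num)
    linarith
  obtain ⟨C', hC', hW⟩ := hFCX K hRX.rg.K0 ν x α (ς * x) c ϑ (C * Nb) n1 k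
    (Mx x ^ Jx x * (nx0 x * k)) (by linarith) hα1 hs0 b5 hx0 hc hϑ hReg hk1 (hkB.trans hBB)
    (hn1.trans (hkB.trans hBB)) hCN hfin (by
      have h1 : (k : ℝ) / ((Mx x ^ Jx x * (nx0 x * k) : ℕ) : ℝ) =
          1 / ((Mx x ^ Jx x * nx0 x : ℕ) : ℝ) := by
        rw [← hratio, one_div, inv_div]
      rw [h1]
      exact b4) hmo
  exact ⟨te α (ς * x), C', by linarith, b5.le, hC', hW⟩

end Pool.Agent.H4.EX
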